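import Pool.Agent.MP_942673_co.Defs

section

/-! Characters of `F₂ⁿ`, moments of the Walsh transform. -/

open Finset

namespace Pool.Agent.MP_942673_co

/-- the sign character of `ZMod 2` -/
def sg (t : ZMod 2) : ℤ := (-1 : ℤ) ^ t.val

theorem sg_zero : sg 0 = 1 := by simp [sg]

theorem sg_one : sg 1 = -1 := by
  have : (1 : ZMod 2).val = 1 := by decide
  simp [sg, this]

theorem z2_cases (t : ZMod 2) : t = 0 ∨ t = 1 := by
  revert t
  decide

theorem sg_add (s t : ZMod 2) : sg (s + t) = sg s * sg t := by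
  have h11 : (1 : ZMod 2) + 1 = 0 := by decide
  rcases z2_cases s with rfl | rfl <;> rcases z2_cases t with rfl | rfl <;>
    simp [sg_zero, sg_one, h11]

theorem sg_cases (t : ZMod 2) : sg t = 1 ∨ sg t = -1 := by
  rcases z2_cases t with rfl | rfl
  · exact Or.inl sg_zero
  · exact Or.inr sg_one

theorem one_add_sg (t : ZMod 2) : 1 + sg t = if t = 0 then 2 else 0 := by
  rcases z2_cases t with rfl | rfl
  · simp [sg_zero]
  · simp [sg_one]

variable {n : ℕ}

theorem v_add_self (x : Fin n → ZMod 2) : x + x = 0 := by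
  funext i
  exact CharTwo.add_self_eq_zero (x i)

theorem v_add_eq_zero {x y : Fin n → ZMod 2} : x + y = 0 ↔ x = y := by
  constructor
  · intro h
    have : x + y + y = y := by rw [h, zero_add]
    rwa [add_assoc, v_add_self, add_zero] at this
  · rintro rfl
    exact v_add_self x

theorem card_V : Fintype.card (Fin n → ZMod 2) = 2 ^ n := by
  simp [ZMod.card]

theorem sum_sg_dot (v : Fin n → ZMod 2) :
    ∑ b : Fin n → ZMod 2, sg (b ⬝ᵥ v) = if v = 0 then 2 ^ n else 0 := by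
  split_ifs with hv
  · subst hv
    simp [sg_zero, ZMod.card]
  · obtain ⟨i, hi⟩ : ∃ i, v i ≠ 0 := by
      by_contra h
      push Not at h
      exact hv (funext h)
    have hi1 : v i = 1 := (z2_cases (v i)).resolve_left hi
    have key : ∑ b : Fin n → ZMod 2, sg (b ⬝ᵥ v) =
        ∑ b : Fin n → ZMod 2, sg ((b + Pi.single i 1) ⬝ᵥ v) :=
      (Equiv.sum_comp (Equiv.addRight (Pi.single i (1 : ZMod 2) : Fin n → ZMod 2))
        (fun b => sg (b ⬝ᵥ v))).symm
    have h2 : ∀ b : Fin n → ZMod 2, sg ((b + Pi.single i 1) ⬝ᵥ v) = -sg (b ⬝ᵥ v) := by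
      intro b
      rw [add_dotProduct, single_dotProduct, one_mul, hi1, sg_add, sg_one]
      ring
    simp only [h2, Finset.sum_neg_distrib] at key
    linarith

theorem walsh_eq (G : (Fin n → ZMod 2) → (Fin n → ZMod 2)) (a b : Fin n → ZMod 2) :
    walsh G a b = ∑ x, sg (b ⬝ᵥ G x) * sg (a ⬝ᵥ x) := by
  simp only [walsh, ← sg_add]
  rfl

/-- inversion formula -/
theorem walsh_inv (G : (Fin n → ZMod 2) → (Fin n → ZMod 2)) (b u : Fin n → ZMod 2) :
    ∑ a, walsh G a b * sg (a ⬝ᵥ u) = 2 ^ n * sg (b ⬝ᵥ G u) := by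
  simp only [walsh_eq, Finset.sum_mul]
  rw [Finset.sum_comm]
  have h : ∀ x : Fin n → ZMod 2, ∑ a, sg (b ⬝ᵥ G x) * sg (a ⬝ᵥ x) * sg (a ⬝ᵥ u) =
      if x = u then 2 ^ n * sg (b ⬝ᵥ G u) else 0 := by
    intro x
    have h1 : ∀ a : Fin n → ZMod 2, sg (b ⬝ᵥ G x) * sg (a ⬝ᵥ x) * sg (a ⬝ᵥ u) =
        sg (b ⬝ᵥ G x) * sg (a ⬝ᵥ (x + u)) := by
      intro a
      rw [dotProduct_add, sg_add, mul_assoc]
    simp only [h1, ← Finset.mul_sum, sum_sg_dot, v_add_eq_zero]
    split_ifs with h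
    · rw [h, mul_comm]
    · simp
  simp only [h]
  simp

theorem sg_mul_self (t : ZMod 2) : sg t * sg t = 1 := by
  rcases sg_cases t with h | h <;> simp [h]

/-- Parseval -/
theorem walsh_parseval (G : (Fin n → ZMod 2) → (Fin n → ZMod 2)) (b : Fin n → ZMod 2) :
    ∑ a, walsh G a b ^ 2 = 2 ^ n * 2 ^ n := by
  have h1 : ∀ a, walsh G a b ^ 2 = ∑ x, sg (b ⬝ᵥ G x) * (walsh G a b * sg (a ⬝ᵥ x)) := by
    intro a
    rw [pow_two]
    nth_rewrite 1 [walsh_eq]
    rw [Finset.sum_mul]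
    exact Finset.sum_congr rfl fun x _ => by ring
  simp only [h1]
  rw [Finset.sum_comm]
  simp only [← Finset.mul_sum, walsh_inv]
  have h2 : ∀ x, sg (b ⬝ᵥ G x) * (2 ^ n * sg (b ⬝ᵥ G x)) = 2 ^ n := by
    intro x
    rw [mul_left_comm, sg_mul_self, mul_one]
  simp only [h2]
  simp [ZMod.card]

/-- number of ordered triples of graph points with a prescribed sum -/
def tri (G : (Fin n → ZMod 2) → (Fin n → ZMod 2)) (x y : Fin n → ZMod 2) : ℕ :=
  (univ.filter fun t : (Fin n → ZMod 2) × (Fin n → ZMod 2) × (Fin n → ZMod 2) =>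
    t.1 + t.2.1 + t.2.2 = x ∧ G t.1 + G t.2.1 + G t.2.2 = y).card

theorem walsh_cube (G : (Fin n → ZMod 2) → (Fin n → ZMod 2)) (a b : Fin n → ZMod 2) :
    walsh G a b ^ 3 = ∑ t : (Fin n → ZMod 2) × (Fin n → ZMod 2) × (Fin n → ZMod 2),
      sg (b ⬝ᵥ (G t.1 + G t.2.1 + G t.2.2)) * sg (a ⬝ᵥ (t.1 + t.2.1 + t.2.2)) := by
  rw [pow_three, walsh_eq, Finset.sum_mul_sum, Finset.sum_mul, Fintype.sum_prod_type]
  refine Finset.sum_congr rfl fun x _ => ?_
  rw [Finset.mul_sum, Fintype.sum_prod_type]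
  refine Finset.sum_congr rfl fun y _ => ?_
  rw [Finset.mul_sum]
  refine Finset.sum_congr rfl fun z _ => ?_
  simp only [dotProduct_add, sg_add]
  ring

theorem tri_eq (G : (Fin n → ZMod 2) → (Fin n → ZMod 2)) (x y : Fin n → ZMod 2) :
    (2 ^ n * 2 ^ n : ℤ) * tri G x y =
      ∑ b, sg (b ⬝ᵥ y) * ∑ a, walsh G a b ^ 3 * sg (a ⬝ᵥ x) := by
  have h1 : ∀ b, sg (b ⬝ᵥ y) * ∑ a, walsh G a b ^ 3 * sg (a ⬝ᵥ x) =
      ∑ t : (Fin n → ZMod 2) × (Fin n → ZMod 2) × (Fin n → ZMod 2),
        sg (b ⬝ᵥ (G t.1 + G t.2.1 + G t.2.2 + y)) *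
          (if t.1 + t.2.1 + t.2.2 = x then 2 ^ n else 0) := by
    intro b
    simp only [walsh_cube, Finset.sum_mul]
    rw [Finset.sum_comm, Finset.mul_sum]
    refine Finset.sum_congr rfl fun t _ => ?_
    have h2 : ∀ a : Fin n → ZMod 2,
        sg (b ⬝ᵥ (G t.1 + G t.2.1 + G t.2.2)) * sg (a ⬝ᵥ (t.1 + t.2.1 + t.2.2)) * sg (a ⬝ᵥ x) =
          sg (b ⬝ᵥ (G t.1 + G t.2.1 + G t.2.2)) * sg (a ⬝ᵥ (t.1 + t.2.1 + t.2.2 + x)) := by
      intro a
      rw [dotProduct_add a _ x, sg_add, mul_assoc]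
    simp only [h2, ← Finset.mul_sum, sum_sg_dot, v_add_eq_zero]
    rw [dotProduct_add b _ y, sg_add]
    ring
  simp only [h1]
  rw [Finset.sum_comm]
  simp only [← Finset.sum_mul, sum_sg_dot, v_add_eq_zero]
  rw [tri, Finset.card_filter]
  push_cast
  rw [Finset.mul_sum]
  refine Finset.sum_congr rfl fun t _ => ?_
  by_cases h1 : t.1 + t.2.1 + t.2.2 = x <;> by_cases h2 : G t.1 + G t.2.1 + G t.2.2 = y <;>
    simp [h1, h2]

end Pool.Agent.MP_942673_co

end

section

/-! Parity properties of triple counts on the graph of a plateaued function. -/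

open Finset

namespace Pool.Agent.MP_942673_co

variable {n : ℕ}

theorem plat_struct {H : (Fin n → ZMod 2) → (Fin n → ZMod 2)} (hH : Plateaued H)
    (b : Fin n → ZMod 2) : ∃ (k j : ℕ) (t : (Fin n → ZMod 2) → ℤ), 2 * k = n + j ∧
      ∀ a, walsh H a b = 2 ^ k * t a ∧ (t a = 0 ∨ t a = 1 ∨ t a = -1) := by
  have key : ∃ k : ℕ, n ≤ 2 * k ∧
      ∀ a, walsh H a b = 0 ∨ walsh H a b = 2 ^ k ∨ walsh H a b = -2 ^ k := by
    by_cases hb : b = 0
    · refine ⟨n, by omega, fun a => ?_⟩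
      subst hb
      have : walsh H a 0 = if a = 0 then 2 ^ n else 0 := by
        rw [walsh_eq, ← sum_sg_dot a]
        refine Finset.sum_congr rfl fun x _ => ?_
        rw [zero_dotProduct, sg_zero, one_mul, dotProduct_comm]
      rw [this]
      split_ifs <;> simp
    · obtain ⟨l, hl⟩ := hH b hb
      have hP := walsh_parseval H b
      have h1 : ∀ a, walsh H a b ^ 2 = l ^ 2 * (if walsh H a b = 0 then 0 else 1) := by
        intro a
        split_ifs with h
        · simp [h]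
        · rcases hl a with h' | h' | h'
          · exact absurd h' h
          · rw [h']; ring
          · rw [h']; ring
      have hd : l ∣ 2 ^ (n + n) := by
        rw [pow_add, ← hP]
        refine Finset.dvd_sum fun a _ => ?_
        rw [h1]
        exact Dvd.dvd.mul_right (dvd_pow_self l two_ne_zero) _
      have hd' : l.natAbs ∣ 2 ^ (n + n) := by
        have := Int.natAbs_dvd_natAbs.2 hd
        simpa [Int.natAbs_pow] using this
      obtain ⟨k, -, hk⟩ := (Nat.dvd_prime_pow Nat.prime_two).1 hd'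
      have hl2 : l = 2 ^ k ∨ l = -2 ^ k := by
        rcases Int.natAbs_eq l with h | h
        · left; rw [h, hk]; simp
        · right; rw [h, hk]; simp
      have hsq : l ^ 2 = 2 ^ (2 * k) := by
        rcases hl2 with h | h <;> rw [h] <;> ring
      refine ⟨k, ?_, fun a => ?_⟩
      · have hle : ∑ a, walsh H a b ^ 2 ≤ ∑ _a : Fin n → ZMod 2, (2 : ℤ) ^ (2 * k) := by
          refine Finset.sum_le_sum fun a _ => ?_
          rw [h1, hsq]
          split_ifs <;> simp
        rw [hP] at hle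
        simp only [Finset.sum_const, Finset.card_univ, card_V, nsmul_eq_mul] at hle
        push_cast at hle
        have h2 : (2 : ℤ) ^ n ≤ 2 ^ (2 * k) := le_of_mul_le_mul_left hle (by positivity)
        exact (pow_le_pow_iff_right₀ (by norm_num)).1 h2
      · rcases hl a with h | h | h <;> rcases hl2 with h' | h' <;> simp [h, h']
  obtain ⟨k, hk, hw⟩ := key
  refine ⟨k, 2 * k - n, fun a => if walsh H a b = 0 then 0 else if walsh H a b = 2 ^ k then 1
    else -1, by omega, fun a => ⟨?_, ?_⟩⟩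
  · dsimp only
    split_ifs with h1 h2
    · simp [h1]
    · simp [h2]
    · rcases hw a with h | h | h
      · exact absurd h h1
      · exact absurd h h2
      · simp [h]
  · dsimp only
    split_ifs <;> simp

section

variable {H : (Fin n → ZMod 2) → (Fin n → ZMod 2)} {k j : (Fin n → ZMod 2) → ℕ}
  {t : (Fin n → ZMod 2) → (Fin n → ZMod 2) → ℤ}

theorem tri_plat (hkj : ∀ b, 2 * k b = n + j b)
    (ht : ∀ b a, walsh H a b = 2 ^ k b * t b a ∧ (t b a = 0 ∨ t b a = 1 ∨ t b a = -1))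
    (x y : Fin n → ZMod 2) : (tri H x y : ℤ) = ∑ b, 2 ^ j b * sg (b ⬝ᵥ (y + H x)) := by
  have h := tri_eq H x y
  have h1 : ∀ b a, walsh H a b ^ 3 = 2 ^ n * 2 ^ j b * walsh H a b := by
    intro b a
    obtain ⟨h1, h2⟩ := ht b a
    rw [h1, ← pow_add, ← hkj b]
    rcases h2 with h | h | h <;> rw [h] <;> ring
  have h2 : ∀ b, sg (b ⬝ᵥ y) * ∑ a, walsh H a b ^ 3 * sg (a ⬝ᵥ x) =
      (2 ^ n * 2 ^ n) * (2 ^ j b * sg (b ⬝ᵥ (y + H x))) := by
    intro b
    simp only [h1, mul_assoc, ← Finset.mul_sum, walsh_inv, dotProduct_add, sg_add]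
    ring
  simp only [h2, ← Finset.mul_sum] at h
  exact mul_left_cancel₀ (by positivity) h

theorem bent_full (hkj : ∀ b, 2 * k b = n + j b)
    (ht : ∀ b a, walsh H a b = 2 ^ k b * t b a ∧ (t b a = 0 ∨ t b a = 1 ∨ t b a = -1))
    {b : Fin n → ZMod 2} (hb : j b = 0) (a : Fin n → ZMod 2) : t b a ^ 2 = 1 := by
  have hP := walsh_parseval H b
  have h1 : ∀ a, walsh H a b ^ 2 = 2 ^ n * t b a ^ 2 := by
    intro a
    have := hkj b
    rw [(ht b a).1, mul_pow, ← pow_mul, mul_comm (k b) 2, this, hb, add_zero]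
  simp only [h1, ← Finset.mul_sum] at hP
  have h2 : ∑ a, t b a ^ 2 = 2 ^ n := mul_left_cancel₀ (by positivity) hP
  have h3 : ∑ a, (1 - t b a ^ 2) = 0 := by
    rw [Finset.sum_sub_distrib, h2]
    simp [ZMod.card]
  have h4 : ∀ a ∈ (univ : Finset (Fin n → ZMod 2)), 0 ≤ 1 - t b a ^ 2 := by
    intro a _
    rcases (ht b a).2 with h | h | h <;> simp [h]
  have := (Finset.sum_eq_zero_iff_of_nonneg h4).1 h3 a (mem_univ a)
  linarith

theorem two_dvd_one_add_sg (c : ZMod 2) : (2 : ℤ) ∣ 1 + sg c := by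
  rcases sg_cases c with h | h <;> simp [h]

/-- the weighted number of components orthogonal to `v` is even -/
theorem four_dvd_plat (hn : 3 ≤ n) (hkj : ∀ b, 2 * k b = n + j b)
    (ht : ∀ b a, walsh H a b = 2 ^ k b * t b a ∧ (t b a = 0 ∨ t b a = 1 ∨ t b a = -1))
    (v : Fin n → ZMod 2) : (4 : ℤ) ∣ ∑ b, 2 ^ j b * (1 + sg (b ⬝ᵥ v)) := by
  have hev : ∀ b, j b ≠ 0 → (2 : ℤ) ∣ 2 ^ j b := fun b hb => dvd_pow_self 2 hb
  rcases Nat.even_or_odd' n with ⟨h, hh | hh⟩
  · -- even dimension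
    have hk : ∀ b, ∃ i, k b = h + i ∧ j b = 2 * i := fun b =>
      ⟨k b - h, by have := hkj b; omega, by have := hkj b; omega⟩
    choose i hi using hk
    have hsum : (2 : ℤ) ^ n ∣ ∑ b, walsh H 0 b * (1 + sg (b ⬝ᵥ v)) := by
      simp only [walsh_eq, Finset.sum_mul]
      rw [Finset.sum_comm]
      refine Finset.dvd_sum fun x _ => ?_
      have : ∀ b : Fin n → ZMod 2, sg (b ⬝ᵥ H x) * sg (0 ⬝ᵥ x) * (1 + sg (b ⬝ᵥ v)) =
          sg (b ⬝ᵥ H x) + sg (b ⬝ᵥ (H x + v)) := by
        intro b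
        rw [zero_dotProduct, sg_zero, dotProduct_add, sg_add]
        ring
      simp only [this, Finset.sum_add_distrib, sum_sg_dot]
      refine dvd_add ?_ ?_ <;> split_ifs <;> simp
    have h1 : ∀ b, walsh H 0 b * (1 + sg (b ⬝ᵥ v)) =
        2 ^ h * (2 ^ i b * t b 0 * (1 + sg (b ⬝ᵥ v))) := by
      intro b
      rw [(ht b 0).1, (hi b).1]
      ring
    simp only [h1, ← Finset.mul_sum] at hsum
    have hpow : (2 : ℤ) ^ n = 2 ^ h * 2 ^ h := by rw [← pow_add, ← two_mul, ← hh]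
    rw [hpow] at hsum
    have h2 := (mul_dvd_mul_iff_left (by positivity : (2 : ℤ) ^ h ≠ 0)).1 hsum
    have h3 : (4 : ℤ) ∣ 2 ^ h := by
      obtain ⟨h', rfl⟩ : ∃ h', h = h' + 2 := ⟨h - 2, by omega⟩
      exact Dvd.intro_left (2 ^ h') (by ring)
    have h4 := h3.trans h2
    have h5 : (4 : ℤ) ∣ ∑ b, (2 ^ j b * (1 + sg (b ⬝ᵥ v)) -
        2 ^ i b * t b 0 * (1 + sg (b ⬝ᵥ v))) := by
      refine Finset.dvd_sum fun b _ => ?_
      rw [← sub_mul]
      refine mul_dvd_mul (a := 2) (c := 2) ?_ (two_dvd_one_add_sg _)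
      by_cases hb : j b = 0
      · have hi0 : i b = 0 := by have := (hi b).2; omega
        have := bent_full hkj ht hb 0
        rw [hb, hi0]
        rcases (ht b 0).2 with h | h | h <;> simp [h] at this ⊢
      · have hi0 : i b ≠ 0 := by have := (hi b).2; omega
        exact dvd_sub (hev b hb) (Dvd.dvd.mul_right (dvd_pow_self 2 hi0) _)
    rw [Finset.sum_sub_distrib] at h5
    simpa using dvd_add h5 h4
  · refine Finset.dvd_sum fun b _ => ?_
    exact mul_dvd_mul (a := 2) (c := 2) (hev b (by have := hkj b; omega)) (two_dvd_one_add_sg _)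

theorem autocorr (H : (Fin n → ZMod 2) → (Fin n → ZMod 2)) (b u : Fin n → ZMod 2) :
    ∑ a, walsh H a b ^ 2 * sg (a ⬝ᵥ u) = 2 ^ n * ∑ x, sg (b ⬝ᵥ (H x + H (x + u))) := by
  have h1 : ∀ a, walsh H a b ^ 2 * sg (a ⬝ᵥ u) =
      ∑ x, sg (b ⬝ᵥ H x) * (walsh H a b * sg (a ⬝ᵥ (x + u))) := by
    intro a
    rw [pow_two]
    nth_rewrite 1 [walsh_eq]
    rw [Finset.sum_mul, Finset.sum_mul]
    refine Finset.sum_congr rfl fun x _ => ?_
    rw [dotProduct_add, sg_add]
    ring
  simp only [h1]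
  rw [Finset.sum_comm, Finset.mul_sum]
  refine Finset.sum_congr rfl fun x _ => ?_
  rw [← Finset.mul_sum, walsh_inv, dotProduct_add, sg_add]
  ring

theorem sixteen_dvd_plat (hn : 3 ≤ n) (hkj : ∀ b, 2 * k b = n + j b)
    (ht : ∀ b a, walsh H a b = 2 ^ k b * t b a ∧ (t b a = 0 ∨ t b a = 1 ∨ t b a = -1))
    (w₁ w₂ b : Fin n → ZMod 2) :
    (16 : ℤ) ∣ 2 ^ j b * ∑ x, (1 + sg (b ⬝ᵥ (H x + w₂ + H (x + w₁)))) := by
  obtain ⟨E, hE⟩ : ∃ E : ℤ, E = ∑ a, t b a ^ 2 * (1 + sg (b ⬝ᵥ w₂) * sg (a ⬝ᵥ w₁)) := ⟨_, rfl⟩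
  have hsq : ∀ a, walsh H a b ^ 2 = 2 ^ n * 2 ^ j b * t b a ^ 2 := by
    intro a
    rw [(ht b a).1, mul_pow, ← pow_mul, mul_comm (k b) 2, hkj b, pow_add]
  have hR : ∑ x, (1 + sg (b ⬝ᵥ (H x + w₂ + H (x + w₁)))) = 2 ^ j b * E := by
    have h1 := autocorr H b w₁
    have h2 := walsh_parseval H b
    have h3 : ∀ x, sg (b ⬝ᵥ (H x + w₂ + H (x + w₁))) =
        sg (b ⬝ᵥ w₂) * sg (b ⬝ᵥ (H x + H (x + w₁))) := by
      intro x
      simp only [dotProduct_add, sg_add]
      ring
    have h4 : (2 : ℤ) ^ n * (2 ^ j b * E) =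
        ∑ a, walsh H a b ^ 2 + sg (b ⬝ᵥ w₂) * ∑ a, walsh H a b ^ 2 * sg (a ⬝ᵥ w₁) := by
      rw [hE, Finset.mul_sum, Finset.mul_sum, Finset.mul_sum, ← Finset.sum_add_distrib]
      refine Finset.sum_congr rfl fun a _ => ?_
      rw [hsq]
      ring
    refine mul_left_cancel₀ (by positivity : (2 : ℤ) ^ n ≠ 0) ?_
    rw [h4, h1, h2]
    simp only [h3, Finset.sum_add_distrib, ← Finset.mul_sum]
    simp [ZMod.card]
    ring
  rw [hR, ← mul_assoc]
  have hkb := hkj b
  rcases (by omega : j b = 0 ∨ j b = 1 ∨ 2 ≤ j b) with hj | hj | hj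
  · have h1 : E = 2 ^ n + sg (b ⬝ᵥ w₂) * (if w₁ = 0 then 2 ^ n else 0) := by
      rw [hE]
      simp only [bent_full hkj ht hj, one_mul, Finset.sum_add_distrib, ← Finset.mul_sum,
        sum_sg_dot]
      simp [ZMod.card]
    have h2 : (16 : ℤ) ∣ 2 ^ n := by
      obtain ⟨n', hn'⟩ : ∃ n', n = n' + 4 := ⟨n - 4, by omega⟩
      rw [hn']
      exact Dvd.intro_left (2 ^ n') (by ring)
    refine Dvd.dvd.mul_left ?_ _
    rw [h1]
    refine dvd_add h2 (Dvd.dvd.mul_left ?_ _)
    split_ifs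
    · exact h2
    · simp
  · obtain ⟨h, hh⟩ : ∃ h, n = k b + (h + 1) := ⟨n - k b - 1, by omega⟩
    have h1 : ∑ a, walsh H a b * (1 + sg (b ⬝ᵥ w₂) * sg (a ⬝ᵥ w₁)) =
        2 ^ n * (sg (b ⬝ᵥ H 0) + sg (b ⬝ᵥ w₂) * sg (b ⬝ᵥ H w₁)) := by
      have e0 := walsh_inv H b 0
      have e1 := walsh_inv H b w₁
      simp only [dotProduct_zero, sg_zero, mul_one] at e0
      rw [mul_add, ← e0, mul_left_comm, ← e1, Finset.mul_sum, ← Finset.sum_add_distrib]
      exact Finset.sum_congr rfl fun a _ => by ring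
    have h2 : (2 : ℤ) ∣ sg (b ⬝ᵥ H 0) + sg (b ⬝ᵥ w₂) * sg (b ⬝ᵥ H w₁) := by
      rw [← sg_add]
      rcases sg_cases (b ⬝ᵥ H 0) with h | h <;>
        rcases sg_cases (b ⬝ᵥ w₂ + b ⬝ᵥ H w₁) with h' | h' <;> simp [h, h']
    obtain ⟨d, hd⟩ := h2
    have h3 : ∑ a, t b a * (1 + sg (b ⬝ᵥ w₂) * sg (a ⬝ᵥ w₁)) = 4 * (2 ^ h * d) := by
      refine mul_left_cancel₀ (by positivity : (2 : ℤ) ^ k b ≠ 0) ?_
      rw [Finset.mul_sum]
      have : ∀ a, 2 ^ k b * (t b a * (1 + sg (b ⬝ᵥ w₂) * sg (a ⬝ᵥ w₁))) =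
          walsh H a b * (1 + sg (b ⬝ᵥ w₂) * sg (a ⬝ᵥ w₁)) := by
        intro a
        rw [(ht b a).1]
        ring
      simp only [this]
      rw [h1, hd]
      nth_rewrite 1 [hh]
      ring
    have h4 : (4 : ℤ) ∣ E - ∑ a, t b a * (1 + sg (b ⬝ᵥ w₂) * sg (a ⬝ᵥ w₁)) := by
      rw [hE, ← Finset.sum_sub_distrib]
      refine Finset.dvd_sum fun a _ => ?_
      rw [← sub_mul, ← sg_add]
      refine mul_dvd_mul (a := 2) (c := 2) ?_ (two_dvd_one_add_sg _)
      rcases (ht b a).2 with h | h | h <;> simp [h]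
    rw [h3] at h4
    have h5 : (4 : ℤ) ∣ E := by simpa using dvd_add h4 (Dvd.intro (2 ^ h * d) rfl)
    rw [hj]
    obtain ⟨E', hE'⟩ := h5
    rw [hE']
    exact Dvd.intro E' (by ring)
  · obtain ⟨i, hi⟩ : ∃ i, j b = i + 2 := ⟨j b - 2, by omega⟩
    rw [hi]
    exact Dvd.dvd.mul_right (Dvd.intro (2 ^ i * 2 ^ i) (by ring)) _

end

/-- The two congruences for the graph of a plateaued function, modulo a translation `w`. -/
theorem plat_congr (hn : 3 ≤ n) {H : (Fin n → ZMod 2) → (Fin n → ZMod 2)} (hH : Plateaued H)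
    (w₁ w₂ : Fin n → ZMod 2) :
    (∀ x, (4 : ℤ) ∣ tri H x (H x) + tri H (x + w₁) (H x + w₂)) ∧
      (16 : ℤ) ∣ ∑ x, ((tri H x (H x) : ℤ) + tri H (x + w₁) (H x + w₂)) := by
  choose k j t hkj ht using plat_struct hH
  have h1 : ∀ x, (tri H x (H x) : ℤ) + tri H (x + w₁) (H x + w₂) =
      ∑ b, 2 ^ j b * (1 + sg (b ⬝ᵥ (H x + w₂ + H (x + w₁)))) := by
    intro x
    rw [tri_plat hkj ht, tri_plat hkj ht, ← Finset.sum_add_distrib]
    refine Finset.sum_congr rfl fun b _ => ?_
    rw [v_add_self, dotProduct_zero, sg_zero]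
    ring
  simp only [h1]
  refine ⟨fun x => four_dvd_plat hn hkj ht _, ?_⟩
  rw [Finset.sum_comm]
  refine Finset.dvd_sum fun b _ => ?_
  rw [← Finset.mul_sum]
  exact sixteen_dvd_plat hn hkj ht w₁ w₂ b

end Pool.Agent.MP_942673_co

end

section

/-! Affine planes on which an APN function has a prescribed sum. -/

open Finset

namespace Pool.Agent.MP_942673_co

variable {n : ℕ}

theorem v_two : (2 : Fin n → ZMod 2) = 0 := by
  funext i
  exact CharTwo.two_eq_zero

theorem tri_apn {F : (Fin n → ZMod 2) → (Fin n → ZMod 2)}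
    (hF : ∀ a, a ≠ 0 → ∀ b, (univ.filter fun x => F (x + a) + F x = b).card ≤ 2)
    (x : Fin n → ZMod 2) : (tri F x (F x) : ℤ) = 3 * 2 ^ n - 2 := by
  have h2 := v_two (n := n)
  have key : ∀ a b c : Fin n → ZMod 2, a + b + c = x → F a + F b + F c = F x →
      a = x ∨ b = x ∨ c = x := by
    intro a b c h1 h3
    by_contra hne
    push Not at hne
    obtain ⟨ha, hb, hc⟩ := hne
    have hu : a + x ≠ 0 := fun h => ha (v_add_eq_zero.1 h)
    have hab : a ≠ b := by
      rintro rfl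
      exact hc (by rw [← h1, v_add_self, zero_add])
    have hle := hF (a + x) hu (F a + F x)
    have e1 : x + (a + x) = a := by linear_combination x * h2
    have e2 : a + (a + x) = x := by linear_combination a * h2
    have e3 : b + (a + x) = c := by linear_combination h1 + (x - c) * h2
    have hsub : ({x, a, b} : Finset _) ⊆ univ.filter fun y => F (y + (a + x)) + F y = F a + F x := by
      intro y hy
      simp only [mem_insert, mem_singleton] at hy
      rw [mem_filter]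
      refine ⟨mem_univ _, ?_⟩
      rcases hy with rfl | rfl | rfl
      · rw [e1]
      · rw [e2, add_comm]
      · rw [e3]
        linear_combination h3 - F a * h2
    have h3c : ({x, a, b} : Finset _).card = 3 :=
      Finset.card_eq_three.2 ⟨x, a, b, ha.symm, hb.symm, hab, rfl⟩
    have := Finset.card_le_card hsub
    omega
  have hind : ∀ a b c : Fin n → ZMod 2,
      (if a + b + c = x ∧ F a + F b + F c = F x then (1 : ℤ) else 0) =
        (if a = x then if b = c then 1 else 0 else 0) +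
        (if b = x then if a = c then 1 else 0 else 0) +
        (if c = x then if a = b then 1 else 0 else 0) -
        2 * (if a = x then if b = x then if c = x then 1 else 0 else 0 else 0) := by
    intro a b c
    by_cases h : a + b + c = x ∧ F a + F b + F c = F x
    · rw [if_pos h]
      rcases key a b c h.1 h.2 with rfl | rfl | rfl
      · obtain rfl : b = c := v_add_eq_zero.1 (by linear_combination h.1)
        by_cases hb : b = a
        · simp [hb]
        · simp [hb]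
      · obtain rfl : a = c := v_add_eq_zero.1 (by linear_combination h.1)
        by_cases hb : a = b
        · simp [hb]
        · simp [hb]
      · obtain rfl : a = b := v_add_eq_zero.1 (by linear_combination h.1)
        by_cases hb : a = c
        · simp [hb]
        · simp [hb]
    · rw [if_neg h]
      have h1 : ¬(a = x ∧ b = c) := by
        rintro ⟨rfl, rfl⟩
        exact h ⟨by rw [add_assoc, v_add_self, add_zero], by rw [add_assoc, v_add_self, add_zero]⟩
      have h3 : ¬(b = x ∧ a = c) := by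
        rintro ⟨rfl, rfl⟩
        exact h ⟨by linear_combination a * h2, by linear_combination F a * h2⟩
      have h4 : ¬(c = x ∧ a = b) := by
        rintro ⟨rfl, rfl⟩
        exact h ⟨by rw [v_add_self, zero_add], by rw [v_add_self, zero_add]⟩
      have h5 : ¬(a = x ∧ b = x ∧ c = x) := fun h => h1 ⟨h.1, h.2.1.trans h.2.2.symm⟩
      simp only [← ite_and, if_neg h1, if_neg h3, if_neg h4, if_neg h5]
      simp
  rw [tri, Finset.card_filter]
  push_cast
  simp only [Fintype.sum_prod_type, hind, Finset.sum_add_distrib, Finset.sum_sub_distrib,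
    ← Finset.mul_sum]
  simp [ZMod.card]
  ring

/-- the affine planes on which `F` sums to `s` -/
def planes (F : (Fin n → ZMod 2) → (Fin n → ZMod 2)) (s : Fin n → ZMod 2) :
    Finset (Finset (Fin n → ZMod 2)) :=
  (powersetCard 4 univ).filter fun P => ∑ y ∈ P, y = 0 ∧ ∑ y ∈ P, F y = s

theorem tri_planes (F : (Fin n → ZMod 2) → (Fin n → ZMod 2)) {s : Fin n → ZMod 2} (hs : s ≠ 0)
    (x : Fin n → ZMod 2) :
    tri F x (F x + s) = 6 * ((planes F s).filter fun P => x ∈ P).card := by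
  have h2 := v_two (n := n)
  have hdist : ∀ a b c : Fin n → ZMod 2, a + b + c = x → F a + F b + F c = F x + s →
      x ≠ a ∧ x ≠ b ∧ x ≠ c ∧ a ≠ b ∧ a ≠ c ∧ b ≠ c := by
    intro a b c h1 h3
    refine ⟨?_, ?_, ?_, ?_, ?_, ?_⟩
    · rintro rfl
      obtain rfl : b = c := v_add_eq_zero.1 (by linear_combination h1)
      exact hs (by linear_combination -h3 + F b * h2)
    · rintro rfl
      obtain rfl : a = c := v_add_eq_zero.1 (by linear_combination h1)
      exact hs (by linear_combination -h3 + F a * h2)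
    · rintro rfl
      obtain rfl : a = b := v_add_eq_zero.1 (by linear_combination h1)
      exact hs (by linear_combination -h3 + F a * h2)
    · rintro rfl
      obtain rfl : c = x := by linear_combination h1 - a * h2
      exact hs (by linear_combination -h3 + F a * h2)
    · rintro rfl
      obtain rfl : b = x := by linear_combination h1 - a * h2
      exact hs (by linear_combination -h3 + F a * h2)
    · rintro rfl
      obtain rfl : a = x := by linear_combination h1 - b * h2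
      exact hs (by linear_combination -h3 + F b * h2)
  have hsum : ∀ (g : (Fin n → ZMod 2) → (Fin n → ZMod 2)) (a b c : Fin n → ZMod 2),
      x ≠ a ∧ x ≠ b ∧ x ≠ c ∧ a ≠ b ∧ a ≠ c ∧ b ≠ c →
        ∑ y ∈ ({x, a, b, c} : Finset _), g y = g x + (g a + (g b + g c)) := by
    rintro g a b c ⟨h1, h3, h4, h5, h6, h7⟩
    rw [sum_insert (by simp [h1, h3, h4]), sum_insert (by simp [h5, h6]), sum_pair h7]
  have hcard : ∀ a b c : Fin n → ZMod 2, x ≠ a ∧ x ≠ b ∧ x ≠ c ∧ a ≠ b ∧ a ≠ c ∧ b ≠ c →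
      ({x, a, b, c} : Finset _).card = 4 := by
    rintro a b c ⟨h1, h3, h4, h5, h6, h7⟩
    rw [card_insert_of_notMem (by simp [h1, h3, h4]), card_insert_of_notMem (by simp [h5, h6]),
      card_pair h7]
  rw [tri, Finset.card_eq_sum_card_fiberwise (f := fun t => ({x, t.1, t.2.1, t.2.2} : Finset _))
    (t := (planes F s).filter fun P => x ∈ P), mul_comm, ← smul_eq_mul, ← Finset.sum_const]
  · refine Finset.sum_congr rfl fun P hP => ?_
    simp only [planes, mem_filter, mem_powersetCard] at hP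
    obtain ⟨⟨⟨-, hP4⟩, hP0, hPs⟩, hx⟩ := hP
    have h6 : (P.erase x).offDiag.card = 6 := by
      rw [Finset.offDiag_card, card_erase_of_mem hx, hP4]
    rw [← h6]
    refine Finset.card_bij (fun t _ => (t.1, t.2.1)) ?_ ?_ ?_
    · rintro ⟨a, b, c⟩ ht
      simp only [mem_filter, mem_univ, true_and] at ht
      obtain ⟨⟨h1, h3⟩, rfl⟩ := ht
      obtain ⟨e1, e2, -, e4, -, -⟩ := hdist a b c h1 h3
      simp [mem_offDiag, e1.symm, e2.symm, e4]
    · rintro ⟨a, b, c⟩ ht ⟨a', b', c'⟩ ht' he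
      simp only [mem_filter, mem_univ, true_and] at ht ht'
      simp only [Prod.mk.injEq] at he ⊢
      obtain ⟨rfl, rfl⟩ := he
      exact ⟨rfl, rfl, add_left_cancel (ht.1.1.trans ht'.1.1.symm)⟩
    · rintro ⟨a, b⟩ hab
      simp only [mem_offDiag, mem_erase] at hab
      obtain ⟨⟨ha, haP⟩, ⟨hb, hbP⟩, hab⟩ := hab
      have hc1 : (((P.erase x).erase a).erase b).card = 1 := by
        rw [card_erase_of_mem (by simp [hab.symm, hb, hbP]), card_erase_of_mem (by simp [ha, haP]),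
          card_erase_of_mem hx, hP4]
      obtain ⟨c, hc⟩ := card_eq_one.1 hc1
      have hcm : c ∈ ((P.erase x).erase a).erase b := by rw [hc]; exact mem_singleton_self c
      simp only [mem_erase] at hcm
      have hd : x ≠ a ∧ x ≠ b ∧ x ≠ c ∧ a ≠ b ∧ a ≠ c ∧ b ≠ c :=
        ⟨ha.symm, hb.symm, hcm.2.2.1.symm, hab, hcm.2.1.symm, hcm.1.symm⟩
      have hPe : ({x, a, b, c} : Finset _) = P := by
        refine Finset.eq_of_subset_of_card_le ?_ (by rw [hP4, hcard a b c hd])
        intro y hy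
        simp only [mem_insert, mem_singleton] at hy
        rcases hy with rfl | rfl | rfl | rfl
        exacts [hx, haP, hbP, hcm.2.2.2]
      rw [← hPe, hsum (fun y => y) a b c hd] at hP0
      rw [← hPe, hsum F a b c hd] at hPs
      refine ⟨(a, b, c), ?_, rfl⟩
      simp only [mem_filter, mem_univ, true_and]
      exact ⟨⟨by linear_combination hP0 - x * h2, by linear_combination hPs - F x * h2⟩, hPe⟩
  · rintro ⟨a, b, c⟩ ht
    simp only [coe_filter, mem_univ, true_and, Set.mem_ofPred_eq] at ht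
    have hd := hdist a b c ht.1 ht.2
    simp only [planes, coe_filter, mem_filter, mem_powersetCard, Set.mem_ofPred_eq]
    refine ⟨⟨⟨subset_univ _, hcard a b c hd⟩, ?_, ?_⟩, mem_insert_self _ _⟩
    · rw [hsum (fun y => y) a b c hd]
      linear_combination ht.1 + x * h2
    · rw [hsum F a b c hd]
      linear_combination ht.2 + F x * h2

/-- The parity argument: the two congruences force the values of `F` to sum to zero. -/
theorem sum_eq_zero_of_congr (hn : 3 ≤ n) {F : (Fin n → ZMod 2) → (Fin n → ZMod 2)}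
    (hF : ∀ x, (tri F x (F x) : ℤ) = 3 * 2 ^ n - 2)
    {s : Fin n → ZMod 2} (hs : s ≠ 0)
    (h4 : ∀ x, (4 : ℤ) ∣ tri F x (F x) + tri F x (F x + s))
    (h16 : (16 : ℤ) ∣ ∑ x, ((tri F x (F x) : ℤ) + tri F x (F x + s))) : ∑ x, F x = 0 := by
  obtain ⟨m, hm⟩ : ∃ m : (Fin n → ZMod 2) → ℕ,
      ∀ x, m x = ((planes F s).filter fun P => x ∈ P).card := ⟨_, fun _ => rfl⟩
  obtain ⟨k, rfl⟩ : ∃ k, n = k + 3 := ⟨n - 3, by omega⟩
  have hpow : (2 : ℤ) ^ (k + 3) = 8 * 2 ^ k := by ring
  simp only [hF, tri_planes F hs, ← hm, hpow] at h4 h16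
  push_cast at h4 h16
  have hodd : ∀ x, Odd (m x) := by
    intro x
    have := h4 x
    rw [Nat.odd_iff]
    omega
  have hdc : ∀ {M : Type} [AddCommMonoid M] (g : (Fin (k + 3) → ZMod 2) → M),
      ∑ x, m x • g x = ∑ P ∈ planes F s, ∑ x ∈ P, g x := by
    intro M _ g
    simp only [hm, Finset.card_filter, Finset.sum_smul]
    rw [Finset.sum_comm]
    refine Finset.sum_congr rfl fun P _ => ?_
    simp [ite_smul]
  have hc : ∑ x, (m x : ℤ) = 4 * (planes F s).card := by
    have := hdc (fun _ => (1 : ℤ))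
    simp only [nsmul_eq_mul, mul_one] at this
    rw [this, Finset.sum_congr rfl (g := fun _ => (4 : ℤ))]
    · simp [mul_comm]
    · intro P hP
      simp only [planes, mem_filter, mem_powersetCard] at hP
      simp [hP.1.2]
  have hev : Even (planes F s).card := by
    rw [Finset.sum_add_distrib, ← Finset.mul_sum, hc, Finset.sum_const, Finset.card_univ, card_V,
      nsmul_eq_mul] at h16
    push_cast at h16
    rw [hpow, show (8 : ℤ) * 2 ^ k * (3 * (8 * 2 ^ k) - 2) =
      16 * (2 ^ k * (12 * 2 ^ k - 1)) by ring] at h16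
    rw [Nat.even_iff]
    omega
  have h1 : ∀ x, m x • F x = F x := by
    intro x
    obtain ⟨j, hj⟩ := hodd x
    rw [hj, add_smul, one_smul, mul_smul, two_smul, v_add_self, zero_add]
  have h3 := hdc F
  simp only [h1] at h3
  rw [h3, Finset.sum_congr rfl (g := fun _ => s)]
  · obtain ⟨j, hj⟩ := hev
    rw [Finset.sum_const, hj, add_smul, v_add_self]
  · intro P hP
    simp only [planes, mem_filter] at hP
    exact hP.2.2

/-- A coordinate of degree `n` has odd weight. -/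
theorem sum_eval_ne_zero (hn : 1 ≤ n) {P : MvPolynomial (Fin n) (ZMod 2)}
    (h1 : ∀ j, MvPolynomial.degreeOf j P ≤ 1) (hd : P.totalDegree = n) :
    ∑ x : Fin n → ZMod 2, MvPolynomial.eval x P ≠ 0 := by
  have hle : ∀ d ∈ P.support, ∀ j, d j ≤ 1 := fun d hd j =>
    (MvPolynomial.monomial_le_degreeOf j hd).trans (h1 j)
  have hne : P.support.Nonempty := by
    rw [MvPolynomial.support_nonempty]
    rintro rfl
    rw [MvPolynomial.totalDegree_zero] at hd
    omega
  obtain ⟨d₀, hd₀, hs⟩ := Finset.exists_mem_eq_sup P.support hne fun s => s.sum fun _ e => e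
  have hone : ∀ j, d₀ j = 1 := by
    have e1 : ∑ j, d₀ j = n := by
      rw [MvPolynomial.totalDegree, hs, Finsupp.sum_fintype _ _ fun _ => rfl] at hd
      exact hd
    have e2 : ∑ j, d₀ j = ∑ _j : Fin n, 1 := by simp [e1]
    exact fun j => (Finset.sum_eq_sum_iff_of_le fun j _ => hle d₀ hd₀ j).1 e2 j (mem_univ j)
  have hpow : ∀ e : ℕ, ∑ t : ZMod 2, t ^ e = if e = 0 then 0 else 1 := by
    intro e
    have : (univ : Finset (ZMod 2)) = {0, 1} := by decide
    rw [this, sum_pair (by decide)]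
    split_ifs with h
    · subst h
      decide
    · simp [h]
  simp only [MvPolynomial.eval_eq']
  rw [Finset.sum_comm]
  simp only [← Finset.mul_sum]
  have h2 : ∀ d : Fin n →₀ ℕ, ∑ x : Fin n → ZMod 2, ∏ i, x i ^ d i =
      ∏ i, if d i = 0 then (0 : ZMod 2) else 1 := by
    intro d
    simp only [← hpow]
    rw [Finset.prod_univ_sum]
    simp
  simp only [h2]
  rw [Finset.sum_eq_single_of_mem d₀ hd₀]
  · simp only [hone, one_ne_zero, if_false, Finset.prod_const_one, mul_one]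
    exact MvPolynomial.mem_support_iff.1 hd₀
  · intro d hd hne
    obtain ⟨j, hj⟩ : ∃ j, d j ≠ d₀ j := by
      by_contra h
      push Not at h
      exact hne (Finsupp.ext h)
    have h0 : d j = 0 := by
      have := hle d hd j
      rw [hone] at hj
      omega
    rw [Finset.prod_eq_zero (mem_univ j) (by simp [h0]), mul_zero]

end Pool.Agent.MP_942673_co

end

section

/-! Transport of triple counts along CCZ-equivalence and switching. -/

open Finset

namespace Pool.Agent.MP_942673_co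

variable {n : ℕ}

theorem e_add_self (p : (Fin n → ZMod 2) × (Fin n → ZMod 2)) : p + p = 0 :=
  Prod.ext (v_add_self _) (v_add_self _)

theorem aff_add (A : ((Fin n → ZMod 2) × (Fin n → ZMod 2)) ≃ᵃ[ZMod 2]
    ((Fin n → ZMod 2) × (Fin n → ZMod 2))) (p q : (Fin n → ZMod 2) × (Fin n → ZMod 2)) :
    A (p + q) = A.linear p + A q := A.map_vadd q p

theorem aff_three (A : ((Fin n → ZMod 2) × (Fin n → ZMod 2)) ≃ᵃ[ZMod 2]
    ((Fin n → ZMod 2) × (Fin n → ZMod 2))) (p q r : (Fin n → ZMod 2) × (Fin n → ZMod 2)) :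
    A (p + q + r) = A p + A q + A r := by
  have h1 := aff_add A p 0
  have h2 := aff_add A q 0
  rw [add_zero] at h1 h2
  rw [aff_add, map_add, h1, h2, add_add_add_comm, e_add_self, add_zero]

theorem ccz_data {H G : (Fin n → ZMod 2) → (Fin n → ZMod 2)} (h : CCZ H G) :
    ∃ (A : ((Fin n → ZMod 2) × (Fin n → ZMod 2)) ≃ᵃ[ZMod 2]
      ((Fin n → ZMod 2) × (Fin n → ZMod 2))) (π : (Fin n → ZMod 2) ≃ (Fin n → ZMod 2)),
      (∀ x, A (x, H x) = (π x, G (π x))) ∧ ∀ p, tri G (A p).1 (A p).2 = tri H p.1 p.2 := by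
  obtain ⟨A, hA⟩ := h
  have h1 : ∀ x, A (x, H x) = ((A (x, H x)).1, G (A (x, H x)).1) := by
    intro x
    have : A (x, H x) ∈ {p : (Fin n → ZMod 2) × (Fin n → ZMod 2) | p.2 = G p.1} :=
      hA ▸ Set.mem_image_of_mem A rfl
    exact Prod.ext rfl this
  have hinj : Function.Injective fun x => (A (x, H x)).1 := by
    intro x y hxy
    have : A (x, H x) = A (y, H y) := by
      rw [h1 x, h1 y]
      exact congrArg (fun u => (u, G u)) hxy
    exact (Prod.ext_iff.1 (A.injective this)).1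
  obtain ⟨π, hπ⟩ : ∃ π : (Fin n → ZMod 2) ≃ (Fin n → ZMod 2), ∀ x, A (x, H x) = (π x, G (π x)) :=
    ⟨Equiv.ofBijective _ (Finite.injective_iff_bijective.1 hinj), h1⟩
  refine ⟨A, π, hπ, fun p => ?_⟩
  symm
  refine Finset.card_equiv (π.prodCongr (π.prodCongr π)) ?_
  rintro ⟨a, b, c⟩
  simp only [mem_filter, mem_univ, true_and, Equiv.prodCongr_apply, Prod.map]
  have h3 := aff_three A (a, H a) (b, H b) (c, H c)
  rw [hπ, hπ, hπ] at h3
  simp only [Prod.mk_add_mk] at h3
  rw [← Prod.ext_iff (x := (a + b + c, H a + H b + H c)) (y := p),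
    ← Prod.ext_iff (x := (π a + π b + π c, G (π a) + G (π b) + G (π c))) (y := A p), ← h3,
    A.injective.eq_iff]

theorem tri_switch (G : (Fin n → ZMod 2) → (Fin n → ZMod 2)) (s : Fin n → ZMod 2)
    (f : (Fin n → ZMod 2) → ZMod 2) (x : Fin n → ZMod 2) :
    tri (fun x => G x + f x • s) x (G x + f x • s) +
      tri (fun x => G x + f x • s) x (G x + f x • s + s) = tri G x (G x) + tri G x (G x + s) := by
  simp only [tri, Finset.card_filter, ← Finset.sum_add_distrib]
  refine Finset.sum_congr rfl fun t _ => ?_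
  by_cases h : t.1 + t.2.1 + t.2.2 = x
  swap
  · simp [h]
  simp only [h, true_and]
  obtain ⟨u, hu⟩ : ∃ u, u = G t.1 + G t.2.1 + G t.2.2 := ⟨_, rfl⟩
  have h2 := v_two (n := n)
  have e1 : G t.1 + f t.1 • s + (G t.2.1 + f t.2.1 • s) + (G t.2.2 + f t.2.2 • s) =
      u + (f t.1 + f t.2.1 + f t.2.2 + f x) • s + f x • s := by
    simp only [add_smul, hu]
    linear_combination (-(f x • s)) * h2
  rw [e1, ← hu, add_right_comm (G x) _ s]
  simp only [add_left_inj]
  rcases z2_cases (f t.1 + f t.2.1 + f t.2.2 + f x) with h' | h' <;> rw [h']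
  · simp
  · have e2 : u + s = G x ↔ u = G x + s :=
      ⟨fun h => by linear_combination h - s * h2, fun h => by linear_combination h + s * h2⟩
    simp only [one_smul, add_left_inj, e2]
    exact add_comm _ _

theorem sum_eq_zero_switch (hn : 3 ≤ n) {H G F : (Fin n → ZMod 2) → (Fin n → ZMod 2)}
    {s : Fin n → ZMod 2} (hs : s ≠ 0) {f : (Fin n → ZMod 2) → ZMod 2} (hH : Plateaued H)
    (hG : CCZ H G) (hF : CCZ (fun x => G x + f x • s) F)
    (hA : ∀ a, a ≠ 0 → ∀ b, (univ.filter fun x => F (x + a) + F x = b).card ≤ 2) :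
    ∑ x, F x = 0 := by
  obtain ⟨A, π, hπ, hT⟩ := ccz_data hG
  obtain ⟨B, ρ, hρ, hU⟩ := ccz_data hF
  obtain ⟨w, hw⟩ : ∃ w, A.linear w = (0, s) := A.linear.surjective _
  obtain ⟨h4, h16⟩ := plat_congr hn hH w.1 w.2
  have key : ∀ x, (tri G (π x) (G (π x)) : ℤ) + tri G (π x) (G (π x) + s) =
      tri H x (H x) + tri H (x + w.1) (H x + w.2) := by
    intro x
    have e1 := hT (x, H x)
    have e2 := hT (w + (x, H x))
    rw [aff_add, hw, hπ] at e2
    rw [hπ] at e1
    simp only [Prod.mk_add_mk, zero_add, Prod.fst_add, Prod.snd_add] at e1 e2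
    rw [e1, add_comm (G (π x)) s, e2, add_comm w.1, add_comm w.2]
  have key' : ∀ x, (tri (fun x => G x + f x • s) x (G x + f x • s) : ℤ) +
      tri (fun x => G x + f x • s) x (G x + f x • s + s) = tri G x (G x) + tri G x (G x + s) := by
    intro x
    exact_mod_cast tri_switch G s f x
  have h0 : ∑ x, (G x + f x • s) = 0 := by
    refine sum_eq_zero_of_congr hn (F := fun x => G x + f x • s) (fun x => ?_) hs (fun x => ?_) ?_
    · have e1 := hU (x, G x + f x • s)
      rw [hρ] at e1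
      rw [← e1]
      exact tri_apn hA _
    · obtain ⟨y, rfl⟩ := π.surjective x
      rw [key', key]
      exact h4 y
    · simp only [key']
      rw [← Equiv.sum_comp π]
      simp only [key]
      exact h16
  have hz : ∀ p : (Fin n → ZMod 2) × (Fin n → ZMod 2), ∑ _x : Fin n → ZMod 2, p = 0 := by
    intro p
    obtain ⟨k, rfl⟩ : ∃ k, n = k + 1 := ⟨n - 1, by omega⟩
    rw [Finset.sum_const, Finset.card_univ, card_V, pow_succ, mul_smul, two_smul, e_add_self,
      smul_zero]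
  have hx : ∑ x : Fin n → ZMod 2, x = 0 := by
    funext i
    rw [Finset.sum_apply]
    have := MvPolynomial.sum_eval_eq_zero (K := ZMod 2) (σ := Fin n) (MvPolynomial.X i) (by
      rw [MvPolynomial.totalDegree_X, ZMod.card, Fintype.card_fin]
      omega)
    simpa using this
  have h1 : ∑ x, B (x, G x + f x • s) = 0 := by
    have : ∀ x, B (x, G x + f x • s) = B.linear (x, G x + f x • s) + B 0 := by
      intro x
      rw [← aff_add, add_zero]
    simp only [this]
    rw [Finset.sum_add_distrib, hz, add_zero, ← map_sum, ← prod_mk_sum, hx, h0]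
    exact map_zero _
  simp only [hρ] at h1
  rw [← prod_mk_sum, Equiv.sum_comp ρ F] at h1
  exact (Prod.ext_iff.1 h1).2

end Pool.Agent.MP_942673_co

end
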